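import Pool.Agent.helper16.BN.Chain

/-!
# MP_94a57f_an, module A5: the Stampacchia `L^∞` bound
-/

set_option autoImplicit false
open MeasureTheory Filter Topology Set Metric
open scoped ContDiff Gradient RealInnerProductSpace ENNReal

noncomputable section
namespace Pool.Agent.helper13.BN
variable {N : ℕ}

/-- Stampacchia's lemma. -/
theorem stampacchia {φ : ℝ → ℝ} (h0 : ∀ k, 0 ≤ φ k)
    (hmono : ∀ k h, 0 ≤ k → k ≤ h → φ h ≤ φ k)
    {M α β A : ℝ} (hM : 0 < M) (hα : 0 < α) (hβ : 1 < β) (hA : 0 < A) (hφ0 : φ 0 ≤ A)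
    (h : ∀ k h, 0 ≤ k → k < h → φ h ≤ (M / (h - k)) ^ α * φ k ^ β) :
    φ (M * A ^ ((β - 1) / α) * 2 ^ (β / (β - 1))) = 0 := by
  obtain ⟨d, hd⟩ : ∃ d : ℝ, d = M * A ^ ((β - 1) / α) * 2 ^ (β / (β - 1)) := ⟨_, rfl⟩
  rw [← hd]
  have hd0 : 0 < d := by rw [hd]; positivity
  obtain ⟨r, hr⟩ : ∃ r : ℝ, r = (2 : ℝ) ^ (-(α / (β - 1))) := ⟨_, rfl⟩
  have hβ1 : 0 < β - 1 := by linarith
  have hr0 : 0 < r := by rw [hr]; positivity
  have hr1 : r < 1 := by
    rw [hr]
    apply Real.rpow_lt_one_of_one_lt_of_neg (by norm_num)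
    have : 0 < α / (β - 1) := by positivity
    linarith
  have key : ∀ n : ℕ, φ (d * (1 - (1 / 2) ^ n)) ≤ A * r ^ n := by
    intro n
    induction n with
    | zero => simpa using hφ0
    | succ n ih =>
      have hk0 : 0 ≤ d * (1 - (1 / 2 : ℝ) ^ n) := by
        have : (1 / 2 : ℝ) ^ n ≤ 1 := pow_le_one₀ (by norm_num) (by norm_num)
        apply mul_nonneg hd0.le; linarith
      have hdiff : d * (1 - (1 / 2 : ℝ) ^ (n + 1)) - d * (1 - (1 / 2 : ℝ) ^ n)
          = d * (1 / 2) ^ (n + 1) := by ring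
      have hpos : 0 < d * (1 / 2 : ℝ) ^ (n + 1) := by positivity
      have h1 := h _ (d * (1 - (1 / 2 : ℝ) ^ (n + 1))) hk0 (by linarith)
      rw [hdiff] at h1
      refine h1.trans ?_
      have h2 : φ (d * (1 - (1 / 2) ^ n)) ^ β ≤ (A * r ^ n) ^ β :=
        Real.rpow_le_rpow (h0 _) ih (by linarith)
      refine (mul_le_mul_of_nonneg_left h2 (by positivity)).trans (le_of_eq ?_)
      have hL : 0 < (M / (d * (1 / 2) ^ (n + 1))) ^ α * (A * r ^ n) ^ β := by positivity
      have hRr : 0 < A * r ^ (n + 1) := by positivity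
      apply Real.log_injOn_pos hL hRr
      have hlogd : Real.log d = Real.log M + (β - 1) / α * Real.log A
          + β / (β - 1) * Real.log 2 := by
        rw [hd, Real.log_mul (by positivity) (by positivity),
          Real.log_mul (by positivity) (by positivity), Real.log_rpow hA,
          Real.log_rpow (by norm_num)]
      have hlogr : Real.log r = -(α / (β - 1)) * Real.log 2 := by
        rw [hr, Real.log_rpow (by norm_num)]
      have e1 : Real.log ((M / (d * (1 / 2) ^ (n + 1))) ^ α * (A * r ^ n) ^ β)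
          = α * (Real.log M - (Real.log d + (n + 1 : ℕ) * (-Real.log 2)))
            + β * (Real.log A + n * Real.log r) := by
        rw [Real.log_mul (by positivity) (by positivity), Real.log_rpow (by positivity),
          Real.log_rpow (by positivity), Real.log_div (by positivity) (by positivity),
          Real.log_mul (by positivity) (by positivity),
          Real.log_mul (by positivity) (by positivity), Real.log_pow, Real.log_pow,
          one_div, Real.log_inv]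
      have e2 : Real.log (A * r ^ (n + 1)) = Real.log A + (n + 1 : ℕ) * Real.log r := by
        rw [Real.log_mul (by positivity) (by positivity), Real.log_pow]
      rw [e1, e2, hlogd, hlogr]
      push_cast
      field_simp
      ring
  have hle : ∀ n : ℕ, φ d ≤ A * r ^ n := by
    intro n
    refine (hmono (d * (1 - (1 / 2) ^ n)) d ?_ ?_).trans (key n)
    · have : (1 / 2 : ℝ) ^ n ≤ 1 := pow_le_one₀ (by norm_num) (by norm_num)
      apply mul_nonneg hd0.le; linarith
    · have : 0 ≤ d * (1 / 2 : ℝ) ^ n := by positivity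
      nlinarith
  have hlim : Tendsto (fun n : ℕ => A * r ^ n) atTop (𝓝 (A * 0)) :=
    (tendsto_pow_atTop_nhds_zero_of_lt_one hr0.le hr1).const_mul A
  rw [mul_zero] at hlim
  exact le_antisymm (ge_of_tendsto' hlim hle) (h0 _)


/-- the basic estimate for one truncation level -/
theorem sup_level (hN : 3 ≤ N) (hN5 : N ≤ 5) {R : ℝ} {Ω : Set (E N)} (hΩ : IsOpen Ω)
    (hR : Ω ⊆ ball 0 R) {w : LV N} {g : E N → ℝ} (hg : Mq 3 Ω g) (hw : Weak Ω w g) {G : ℝ}
    (hG : nq 3 Ω g ≤ G) {k h : ℝ} (hk : 0 ≤ k) (hkh : k < h) :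
    volume.real {x | x ∈ Ω ∧ h < fn w x} ≤ (SS N ^ 2 * G / (h - k)) ^ ts N *
      volume.real {x | x ∈ Ω ∧ k < fn w x} ^ (2 / 3 * ts N - 1) := by
  have hN3 : (3 : ℝ) ≤ N := by exact_mod_cast hN
  have hN5' : (N : ℝ) ≤ 5 := by exact_mod_cast hN5
  have hS := SS_pos (N := N)
  have hts0 : 0 < ts N := by unfold ts; apply div_pos <;> linarith
  have hts32 : 3 / 2 ≤ ts N := by
    unfold ts
    rw [le_div_iff₀ (by linarith)]
    linarith
  have hvol : volume (ball (0 : E N) R) < ⊤ := measure_ball_lt_top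
  have hVΩ : volume Ω < ⊤ := (measure_mono hR).trans_lt hvol
  obtain ⟨w', hw', hfn, hgr⟩ := chain hN hΩ (isBounded_ball.subset hR) isOpen_univ
    (subset_univ _) (ψ := fun _ => k) contDiffOn_const (fun _ _ => hk) hw.1
  have hw'u : w' ∈ DD (univ : Set (E N)) := DD_mono (subset_univ _) hw'
  obtain ⟨hM, hSob⟩ := sobolev hN hw'u
  set f : E N → ℝ := Ω.indicator (fun x => max (fn w x - k) 0) with hf
  set A : Set (E N) := {x | x ∈ Ω ∧ k < fn w x} with hA
  have hAΩ : A ⊆ Ω := fun x hx => hx.1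
  have hfsupp : f.support ⊆ A := by
    intro x hx
    rw [Function.mem_support, hf] at hx
    by_cases hxΩ : x ∈ Ω
    · refine ⟨hxΩ, ?_⟩
      rw [indicator_of_mem hxΩ] at hx
      by_contra hlt
      exact hx (max_eq_right (by linarith [not_lt.1 hlt]))
    · rw [indicator_of_notMem hxΩ] at hx
      exact absurd rfl hx
  have hfm : AEStronglyMeasurable f volume := (fn_meas w').congr hfn
  have hts : (ENNReal.ofReal (ts N)).toReal = ts N := ENNReal.toReal_ofReal hts0.le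
  -- the norm in `L^{2*}`
  have hfn1 : eLpNorm f (ENNReal.ofReal (ts N)) volume
      = eLpNorm (fn w') (ENNReal.ofReal (ts N)) volume := eLpNorm_congr_ae hfn.symm
  have hfin : eLpNorm f (ENNReal.ofReal (ts N)) volume < ⊤ := by
    rw [hfn1]; simpa [Measure.restrict_univ] using hM.2
  set V : ℝ := (eLpNorm f (ENNReal.ofReal (ts N)) volume).toReal with hV
  have hV0 : 0 ≤ V := ENNReal.toReal_nonneg
  have hVS : V ≤ SS N * ‖w'‖ := by
    have := hSob
    rw [nq, Measure.restrict_univ] at this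
    rw [hV, hfn1]; exact this
  have hVtop : eLpNorm f (ENNReal.ofReal (ts N)) volume = ENNReal.ofReal V := by
    rw [hV, ENNReal.ofReal_toReal hfin.ne]
  set a : ℝ := volume.real A with ha
  have hAfin : volume A ≠ ⊤ := ((measure_mono hAΩ).trans_lt hVΩ).ne
  have ha0 : 0 ≤ a := measureReal_nonneg
  have hAa : volume A = ENNReal.ofReal a := by
    rw [ha, Measure.real, ENNReal.ofReal_toReal hAfin]
  have hγ : 0 ≤ 2 / 3 - 1 / ts N := by
    rw [sub_nonneg, div_le_div_iff₀ hts0 (by norm_num)]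
    linarith
  -- the norm in `L^{3/2}`
  have h32 : eLpNorm f (ENNReal.ofReal (3 / 2)) volume
      ≤ ENNReal.ofReal (V * a ^ (2 / 3 - 1 / ts N)) := by
    rw [← eLpNorm_restrict_eq_of_support_subset hfsupp]
    refine (eLpNorm_le_eLpNorm_mul_rpow_measure_univ (ENNReal.ofReal_le_ofReal hts32)
      hfm.restrict).trans ?_
    rw [eLpNorm_restrict_eq_of_support_subset hfsupp, Measure.restrict_apply_univ, hts,
      ENNReal.toReal_ofReal (by norm_num), hVtop, hAa, ENNReal.ofReal_mul hV0]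
    have : (1 / (3 / 2) - 1 / ts N : ℝ) = 2 / 3 - 1 / ts N := by norm_num
    rw [this, ENNReal.ofReal_rpow_of_nonneg ha0 hγ]
  have hconj : (3 : ℝ).HolderConjugate (3 / 2) := by
    rw [Real.holderConjugate_iff]; norm_num
  have hconj' := hconj.ennrealOfReal
  have htd0 : 0 < td N := by unfold td; positivity
  have htd3 : td N ≤ 3 := by
    unfold td
    rw [div_le_iff₀ (by linarith)]
    linarith
  have hpair := weak_pair hN hΩ.measurableSet (Mq_mono hR htd0 htd3 hg) hw hw'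
  have hfnΩ : fn w' =ᵐ[volume.restrict Ω] f := ae_restrict_of_ae hfn
  have hint : ∫ x in Ω, g x * fn w' x = ∫ x in Ω, g x * f x :=
    integral_congr_ae (hfnΩ.mono fun x hx => by simp only [hx])
  have h2b : ∫ x in Ω, g x * f x ≤ G * (V * a ^ (2 / 3 - 1 / ts N)) := by
    have h1 : ‖∫ x in Ω, g x * f x‖ₑ ≤ eLpNorm (g • f) 1 (volume.restrict Ω) := by
      rw [eLpNorm_one_eq_lintegral_enorm]
      exact enorm_integral_le_lintegral_enorm _
    have h2 : eLpNorm (g • f) 1 (volume.restrict Ω) ≤ eLpNorm g (ENNReal.ofReal 3)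
        (volume.restrict Ω) * eLpNorm f (ENNReal.ofReal (3 / 2)) (volume.restrict Ω) :=
      eLpNorm_smul_le_mul_eLpNorm hfm.restrict hg.1
    have h3 : eLpNorm g (ENNReal.ofReal 3) (volume.restrict Ω) ≤ ENNReal.ofReal G := by
      rw [← ENNReal.ofReal_toReal hg.2.ne]
      exact ENNReal.ofReal_le_ofReal hG
    have h4 : ‖∫ x in Ω, g x * f x‖ₑ ≤ ENNReal.ofReal (G * (V * a ^ (2 / 3 - 1 / ts N))) := by
      have hG0 : 0 ≤ G := le_trans ENNReal.toReal_nonneg hG
      rw [ENNReal.ofReal_mul hG0]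
      refine h1.trans (h2.trans (mul_le_mul' h3 ?_))
      exact (eLpNorm_mono_measure _ Measure.restrict_le_self).trans h32
    have hG0 : 0 ≤ G := le_trans ENNReal.toReal_nonneg hG
    rw [← ofReal_norm, ENNReal.ofReal_le_ofReal_iff (by positivity)] at h4
    exact (le_abs_self _).trans h4
  -- the energy
  have hen : ‖w'‖ ^ 2 = ∫ x in Ω, g x * f x := by
    rw [← hint, ← hpair.2, ← real_inner_self_eq_norm_sq, L2.inner_def, L2.inner_def]
    apply integral_congr_ae
    filter_upwards [hgr] with x hx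
    rw [hx]
    by_cases hxA : x ∈ {x | x ∈ Ω ∧ k < fn w x}
    · rw [indicator_of_mem hxA]
      have : ∇ (fun _ : E N => k) x = 0 := by simp [gradient]
      rw [this, sub_zero]
    · rw [indicator_of_notMem hxA]; simp
  have hW0 : 0 ≤ ‖w'‖ := norm_nonneg _
  have hG0 : 0 ≤ G := le_trans ENNReal.toReal_nonneg hG
  have haγ : 0 ≤ a ^ (2 / 3 - 1 / ts N) := by positivity
  have hWle : ‖w'‖ ≤ SS N * G * a ^ (2 / 3 - 1 / ts N) := by
    have h1 : ‖w'‖ ^ 2 ≤ G * (SS N * ‖w'‖ * a ^ (2 / 3 - 1 / ts N)) := by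
      rw [hen]
      refine h2b.trans (mul_le_mul_of_nonneg_left (mul_le_mul_of_nonneg_right hVS haγ) hG0)
    rcases hW0.eq_or_lt with h0 | h0
    · rw [← h0]; positivity
    · have : ‖w'‖ * ‖w'‖ ≤ ‖w'‖ * (SS N * G * a ^ (2 / 3 - 1 / ts N)) := by nlinarith
      exact le_of_mul_le_mul_left this h0
  have hVle : V ≤ SS N ^ 2 * G * a ^ (2 / 3 - 1 / ts N) := by
    refine hVS.trans ?_
    have := mul_le_mul_of_nonneg_left hWle hS.le
    refine this.trans (le_of_eq (by ring))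
  -- Chebyshev
  have hcheb : volume.real {x | x ∈ Ω ∧ h < fn w x} ≤ (V / (h - k)) ^ ts N := by
    have hhk : 0 < h - k := by linarith
    have h1 := mul_meas_ge_le_pow_eLpNorm' (μ := (volume : Measure (E N)))
      (p := ENNReal.ofReal (ts N)) (by simpa using hts0) ENNReal.ofReal_ne_top hfm
      (ENNReal.ofReal (h - k))
    rw [hts, hVtop, ENNReal.ofReal_rpow_of_nonneg hhk.le hts0.le,
      ENNReal.ofReal_rpow_of_nonneg hV0 hts0.le] at h1
    have hsub : {x | x ∈ Ω ∧ h < fn w x} ⊆ {x | ENNReal.ofReal (h - k) ≤ ‖f x‖ₑ} := by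
      intro x hx
      rw [Set.mem_ofPred_eq]
      rw [← ofReal_norm]
      apply ENNReal.ofReal_le_ofReal
      rw [hf, indicator_of_mem hx.1, Real.norm_eq_abs]
      have : h - k ≤ fn w x - k := by linarith [hx.2]
      exact this.trans ((le_max_left _ _).trans (le_abs_self _))
    have h2 : ENNReal.ofReal ((h - k) ^ ts N) * volume {x | x ∈ Ω ∧ h < fn w x}
        ≤ ENNReal.ofReal (V ^ ts N) := (mul_le_mul_right (measure_mono hsub) _).trans h1
    have hBfin : volume {x | x ∈ Ω ∧ h < fn w x} ≠ ⊤ :=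
      ((measure_mono (fun x hx => hx.1)).trans_lt hVΩ).ne
    rw [← ENNReal.ofReal_toReal hBfin, ← ENNReal.ofReal_mul (by positivity),
      ENNReal.ofReal_le_ofReal_iff (by positivity)] at h2
    rw [Real.div_rpow hV0 hhk.le, le_div_iff₀ (by positivity), mul_comm]
    exact h2
  refine hcheb.trans ?_
  have hhk : 0 < h - k := by linarith
  have h5 : V / (h - k) ≤ SS N ^ 2 * G / (h - k) * a ^ (2 / 3 - 1 / ts N) := by
    rw [div_mul_eq_mul_div]
    exact div_le_div_of_nonneg_right hVle hhk.le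
  refine (Real.rpow_le_rpow (by positivity) h5 hts0.le).trans (le_of_eq ?_)
  rw [Real.mul_rpow (by positivity) haγ, ← Real.rpow_mul ha0]
  congr 2
  field_simp

/-- the bound from above, with `G > ‖g‖_3` -/
theorem sup_above (hN : 3 ≤ N) (hN5 : N ≤ 5) {R A : ℝ}
    (hAR : volume.real (ball (0 : E N) R) ≤ A) (hA : 0 < A) {Ω : Set (E N)} (hΩ : IsOpen Ω)
    (hR : Ω ⊆ ball 0 R) {w : LV N} {g : E N → ℝ} (hg : Mq 3 Ω g) (hw : Weak Ω w g) {G : ℝ}
    (hG : nq 3 Ω g < G) :
    ∀ᵐ x, fn w x ≤ SS N ^ 2 * G * A ^ ((2 / 3 * ts N - 1 - 1) / ts N) *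
      2 ^ ((2 / 3 * ts N - 1) / (2 / 3 * ts N - 1 - 1)) := by
  have hN3 : (3 : ℝ) ≤ N := by exact_mod_cast hN
  have hN5' : (N : ℝ) ≤ 5 := by exact_mod_cast hN5
  have hS := SS_pos (N := N)
  have hts0 : 0 < ts N := by unfold ts; apply div_pos <;> linarith
  have hts3 : 3 < ts N := by
    unfold ts
    rw [lt_div_iff₀ (by linarith)]
    linarith
  have hG0 : 0 < G := lt_of_le_of_lt ENNReal.toReal_nonneg hG
  have hvol : volume (ball (0 : E N) R) ≠ ⊤ := measure_ball_lt_top.ne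
  have hVΩ : volume Ω ≠ ⊤ := ((measure_mono hR).trans_lt measure_ball_lt_top).ne
  have hfin : ∀ k, volume {x | x ∈ Ω ∧ k < fn w x} ≠ ⊤ := fun k =>
    ((measure_mono (fun x hx => hx.1)).trans_lt hVΩ.lt_top).ne
  have hst := stampacchia (φ := fun k => volume.real {x | x ∈ Ω ∧ k < fn w x})
    (fun k => measureReal_nonneg)
    (fun k h _ hkh => measureReal_mono (fun x hx => ⟨hx.1, hkh.trans_lt hx.2⟩) (hfin k))
    (M := SS N ^ 2 * G) (α := ts N) (β := 2 / 3 * ts N - 1) (A := A) (by positivity) hts0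
    (by linarith) hA
    ((measureReal_mono (fun x hx => hR hx.1) hvol).trans hAR)
    (fun k h hk hkh => sup_level hN hN5 hΩ hR hg hw hG.le hk hkh)
  set d : ℝ := SS N ^ 2 * G * A ^ ((2 / 3 * ts N - 1 - 1) / ts N) *
      2 ^ ((2 / 3 * ts N - 1) / (2 / 3 * ts N - 1 - 1)) with hd
  have hd0 : 0 < d := by positivity
  have hz : volume {x | x ∈ Ω ∧ d < fn w x} = 0 :=
    (measureReal_eq_zero_iff (hfin d)).1 hst
  filter_upwards [measure_eq_zero_iff_ae_notMem.1 hz, fn_zero_off hN hw.1] with x hx hx0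
  by_cases hxΩ : x ∈ Ω
  · by_contra hlt
    exact hx ⟨hxΩ, not_le.1 hlt⟩
  · rw [hx0 hxΩ]; exact hd0.le

theorem weak_neg {Ω : Set (E N)} {w : LV N} {g : E N → ℝ} (hw : Weak Ω w g) :
    Weak Ω ((-1 : ℝ) • w) (fun x => - g x) := by
  refine ⟨(DD Ω).smul_mem _ hw.1, fun φ W hφ hW => ?_⟩
  rw [real_inner_smul_left, hw.2 φ W hφ hW, ← integral_const_mul]
  congr 1
  ext x
  ring

/-- the Stampacchia `L^∞` bound -/
theorem exists_sup (hN : 3 ≤ N) (hN5 : N ≤ 5) (R : ℝ) : ∃ C : ℝ, 0 < C ∧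
    ∀ (Ω : Set (E N)), IsOpen Ω → Ω ⊆ ball 0 R → ∀ (w : LV N) (g : E N → ℝ), Mq 3 Ω g →
      Weak Ω w g → ∀ᵐ x, |fn w x| ≤ C * nq 3 Ω g := by
  have hS := SS_pos (N := N)
  obtain ⟨A, hA⟩ : ∃ A : ℝ, A = volume.real (ball (0 : E N) R) + 1 := ⟨_, rfl⟩
  have hA0 : 0 < A := by rw [hA]; positivity
  have hAR : volume.real (ball (0 : E N) R) ≤ A := by rw [hA]; linarith
  obtain ⟨C, hC⟩ : ∃ C : ℝ, C = SS N ^ 2 * (A ^ ((2 / 3 * ts N - 1 - 1) / ts N) *
      2 ^ ((2 / 3 * ts N - 1) / (2 / 3 * ts N - 1 - 1))) := ⟨_, rfl⟩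
  have hC0 : 0 < C := by rw [hC]; positivity
  refine ⟨C, hC0, ?_⟩
  intro Ω hΩ hR w g hg hw
  have hgn : Mq 3 Ω (fun x => - g x) := hg.neg
  have hnq : nq 3 Ω (fun x => - g x) = nq 3 Ω g := by
    unfold nq
    rw [show (fun x => - g x) = - g from rfl, eLpNorm_neg]
  have hall : ∀ n : ℕ, ∀ᵐ x, |fn w x| ≤ C * (nq 3 Ω g + 1 / ((n : ℝ) + 1)) := by
    intro n
    have hlt : nq 3 Ω g < nq 3 Ω g + 1 / ((n : ℝ) + 1) := by
      have : 0 < 1 / ((n : ℝ) + 1) := by positivity
      linarith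
    have h1 := sup_above hN hN5 hAR hA0 hΩ hR hg hw hlt
    have h2 := sup_above hN hN5 hAR hA0 hΩ hR hgn (weak_neg hw) (hnq ▸ hlt)
    have h3 := fn_smul hN (-1) (DD_mono (subset_univ Ω) hw.1)
    filter_upwards [h1, h2, h3] with x h1 h2 h3
    rw [h3] at h2
    rw [abs_le, hC]
    constructor <;> nlinarith
  rw [← ae_all_iff] at hall
  filter_upwards [hall] with x hx
  have hlim : Tendsto (fun n : ℕ => C * (nq 3 Ω g + 1 / ((n : ℝ) + 1))) atTop
      (𝓝 (C * (nq 3 Ω g + 0))) :=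
    (tendsto_const_nhds.add tendsto_one_div_add_atTop_nhds_zero_nat).const_mul C
  rw [add_zero] at hlim
  exact ge_of_tendsto' hlim hx

end Pool.Agent.helper13.BN
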