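import Pool.Agent.helper13.BN.Stmt
import Pool.Agent.helper16.BN.Chain

/-!
# MP_94a57f_an, module D11: translation to `H¹₀`
-/

set_option autoImplicit false
open MeasureTheory Filter Topology Set Metric
open scoped ContDiff Gradient RealInnerProductSpace ENNReal

noncomputable section
namespace Pool.Agent.helper13.BN
variable {N : ℕ}

theorem bubble_eq74 (N : ℕ) (μ : ℝ) (ξ : E N) : bubble N μ ξ = bub N μ ξ := rfl

theorem ts_sub_two74 (hN : 3 ≤ N) : ts N - 2 = pm N := by
  have h : (3 : ℝ) ≤ N := by exact_mod_cast hN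
  have h2 : (N : ℝ) - 2 ≠ 0 := by linarith
  unfold ts pm
  field_simp
  ring

theorem inH10_of_DD (hN : 3 ≤ N) {R : ℝ} {Ω : Set (E N)} (hΩ : Ω ⊆ ball 0 R) {w : LV N}
    (hw : w ∈ DD Ω) : InH10 Ω (fn w) (fun x => w x) := by
  have hts := ts_gt hN
  have hwu : w ∈ DD (univ : Set (E N)) := DD_mono (subset_univ _) hw
  have hS := (sobolev hN hwu).1
  unfold Mq at hS
  rw [Measure.restrict_univ] at hS
  have hfin : IsFiniteMeasure ((volume : Measure (E N)).restrict (ball 0 R)) :=
    ⟨by rw [Measure.restrict_apply_univ]; exact measure_ball_lt_top⟩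
  have h2le : (2 : ℝ≥0∞) ≤ ENNReal.ofReal (ts N) := by
    rw [show (2 : ℝ≥0∞) = ENNReal.ofReal 2 by norm_num]
    exact ENNReal.ofReal_le_ofReal hts.le
  have hzero := fn_zero_off hN hw
  have hind : ∀ g : E N → ℝ, (∀ᵐ x, x ∉ Ω → g x = 0) →
      (ball (0 : E N) R).indicator g =ᵐ[volume] g := by
    intro g hg
    filter_upwards [hg] with x hx
    by_cases hxB : x ∈ ball (0 : E N) R
    · rw [indicator_of_mem hxB]
    · rw [indicator_of_notMem hxB, hx (fun h => hxB (hΩ h))]
  have hL2 : MemLp (fn w) 2 (volume : Measure (E N)) := by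
    have h1 : MemLp (fn w) 2 ((volume : Measure (E N)).restrict (ball 0 R)) :=
      (hS.restrict _).mono_exponent h2le
    have h2 := (memLp_indicator_iff_restrict measurableSet_ball).2 h1
    exact h2.ae_eq (hind _ hzero)
  refine ⟨hL2, Lp.memLp w, ?_⟩
  obtain ⟨φ, W, h1, h2, h3⟩ := fn_seq hN hw
  refine ⟨φ, fun k => (h1 k).1, ?_, ?_⟩
  · have key : ∀ k, eLpNorm (fun x => φ k x - fn w x) 2 volume ≤
        eLpNorm (fun x => φ k x - fn w x) (ENNReal.ofReal (ts N)) volume *
          (volume : Measure (E N)) (ball 0 R) ^ (1 / (2 : ℝ≥0∞).toReal -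
            1 / (ENNReal.ofReal (ts N)).toReal) := by
      intro k
      have hz : ∀ᵐ x, x ∉ Ω → φ k x - fn w x = 0 := by
        filter_upwards [hzero] with x hx hxΩ
        rw [hx hxΩ, image_eq_zero_of_notMem_tsupport fun h => hxΩ ((h1 k).1.2.2 h), sub_zero]
      have hm : AEStronglyMeasurable (fun x => φ k x - fn w x) (volume : Measure (E N)) :=
        (h1 k).1.1.continuous.aestronglyMeasurable.sub (fn_meas w)
      rw [← eLpNorm_congr_ae (hind _ hz), eLpNorm_indicator_eq_eLpNorm_restrict measurableSet_ball]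
      refine (eLpNorm_le_eLpNorm_mul_rpow_measure_univ h2le hm.restrict).trans ?_
      rw [Measure.restrict_apply_univ]
      exact mul_le_mul_left (eLpNorm_mono_measure _ Measure.restrict_le_self) _
    have hlim := ENNReal.Tendsto.mul_const h3 (b := (volume : Measure (E N)) (ball 0 R) ^
      (1 / (2 : ℝ≥0∞).toReal - 1 / (ENNReal.ofReal (ts N)).toReal)) (Or.inr (by
        apply ENNReal.rpow_ne_top_of_nonneg _ measure_ball_lt_top.ne
        rw [ENNReal.toReal_ofReal (by linarith), sub_nonneg]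
        apply one_div_le_one_div_of_le
        · norm_num
        · simpa using hts.le))
    rw [zero_mul] at hlim
    exact tendsto_of_tendsto_of_tendsto_of_le_of_le tendsto_const_nhds hlim
      (fun _ => zero_le) key
  · have h4 : ∀ k, eLpNorm (fun x => ∇ (φ k) x - w x) 2 volume = ENNReal.ofReal ‖W k - w‖ := by
      intro k
      have h5 : (fun x => ∇ (φ k) x - w x) =ᵐ[volume] ((W k - w : LV N) : E N → E N) := by
        filter_upwards [(h1 k).2, Lp.coeFn_sub (W k) w] with x h6 h7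
        rw [h7, Pi.sub_apply, h6]
      rw [eLpNorm_congr_ae h5, Lp.norm_def, ENNReal.ofReal_toReal (Lp.eLpNorm_ne_top _)]
    simp_rw [h4]
    have h6 : Tendsto (fun k => ‖W k - w‖) atTop (𝓝 0) := by
      have := (h2.sub_const w).norm
      simpa using this
    have h7 := ENNReal.tendsto_ofReal h6
    simpa using h7

/-- the pairing of a weak equation, written with gradients -/
theorem weak_grad74 {Ω : Set (E N)} {w : LV N} {g : E N → ℝ} (hw : Weak Ω w g)
    {φ : E N → ℝ} (hφ : IsTest Ω φ) : ∫ x, ⟪w x, ∇ φ x⟫ = ∫ x, g x * φ x := by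
  obtain ⟨W, hW⟩ := hφ.exists_isGrad
  rw [← hw.2 φ W hφ hW, inner_eq_integral]
  refine integral_congr_ae ?_
  filter_upwards [hW] with x hx
  rw [hx]

theorem integrable_rhs74 (hN : 3 ≤ N) {w : LV N} (hw : w ∈ DD univ) (lam : ℝ) {φ : E N → ℝ}
    (hφ : IsTest univ φ) :
    Integrable (fun x => (lam * fn w x + nl N (fn w x)) * φ x) := by
  have hts := ts_gt hN
  have hS := (sobolev hN hw).1
  unfold Mq at hS
  rw [Measure.restrict_univ] at hS
  have h1 : Integrable (fun x => ‖fn w x‖ ^ (ENNReal.ofReal (ts N)).toReal)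
      (volume : Measure (E N)) := hS.integrable_norm_rpow (ts_ne_zero hN) ENNReal.ofReal_ne_top
  rw [ENNReal.toReal_ofReal (by linarith)] at h1
  obtain ⟨M, hM⟩ := hφ.2.1.exists_bound_of_continuous hφ.1.continuous
  have hφi : Integrable φ := hφ.1.continuous.integrable_of_hasCompactSupport hφ.2.1
  have hdom : Integrable (fun x => (|lam| + 1) * (|φ x| + M * ‖fn w x‖ ^ ts N))
      (volume : Measure (E N)) := (hφi.abs.add (h1.const_mul M)).const_mul _
  have hpm : 0 < pm N := by rw [← ts_sub_two74 hN]; linarith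
  have hnlc : Continuous (nl N) := by
    unfold nl
    exact ((continuous_abs.rpow_const (fun x => Or.inr hpm.le))).mul continuous_id
  have hmeas : AEStronglyMeasurable (fun x => (lam * fn w x + nl N (fn w x)) * φ x)
      (volume : Measure (E N)) :=
    (((fn_meas w).const_mul lam).add (hnlc.comp_aestronglyMeasurable (fn_meas w))).mul
      hφ.1.continuous.aestronglyMeasurable
  refine hdom.mono' hmeas (Eventually.of_forall fun x => ?_)
  have hu : ∀ q : ℝ, 0 ≤ q → q ≤ ts N → ‖fn w x‖ ^ q ≤ 1 + ‖fn w x‖ ^ ts N := by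
    intro q hq hq'
    rcases le_total ‖fn w x‖ 1 with h | h
    · have h3 := Real.rpow_le_one (norm_nonneg _) h hq
      have h4 : 0 ≤ ‖fn w x‖ ^ ts N := Real.rpow_nonneg (norm_nonneg _) _
      linarith
    · have h3 := Real.rpow_le_rpow_of_exponent_le h hq'
      linarith
  have hu1 := hu 1 zero_le_one (by linarith)
  have hu2 := hu (pm N + 1) (by linarith) (by rw [← ts_sub_two74 hN]; linarith)
  rw [Real.rpow_one] at hu1
  have hnl : |nl N (fn w x)| ≤ 1 + ‖fn w x‖ ^ ts N := by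
    refine le_trans (le_of_eq ?_) hu2
    unfold nl
    rw [abs_mul, abs_of_nonneg (Real.rpow_nonneg (abs_nonneg _) _), Real.norm_eq_abs]
    rcases eq_or_ne |fn w x| 0 with h0 | h0
    · rw [h0, mul_zero, Real.zero_rpow (by linarith)]
    · rw [Real.rpow_add_one h0]
  have h5 : |lam * fn w x + nl N (fn w x)| ≤ (|lam| + 1) * (1 + ‖fn w x‖ ^ ts N) := by
    calc |lam * fn w x + nl N (fn w x)| ≤ |lam * fn w x| + |nl N (fn w x)| := abs_add_le _ _
      _ ≤ |lam| * (1 + ‖fn w x‖ ^ ts N) + (1 + ‖fn w x‖ ^ ts N) := by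
          rw [abs_mul]
          exact add_le_add (mul_le_mul_of_nonneg_left (by simpa using hu1) (abs_nonneg _)) hnl
      _ = _ := by ring
  have h6 : 0 ≤ ‖fn w x‖ ^ ts N := Real.rpow_nonneg (norm_nonneg _) _
  have h7 : |φ x| ≤ M := hM x
  rw [Real.norm_eq_abs, abs_mul]
  calc |lam * fn w x + nl N (fn w x)| * |φ x|
      ≤ (|lam| + 1) * (1 + ‖fn w x‖ ^ ts N) * |φ x| :=
        mul_le_mul_of_nonneg_right h5 (abs_nonneg _)
    _ = (|lam| + 1) * (|φ x| + |φ x| * ‖fn w x‖ ^ ts N) := by ring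
    _ ≤ (|lam| + 1) * (|φ x| + M * ‖fn w x‖ ^ ts N) := by
        gcongr

theorem isSolBN_of_weak (hN : 3 ≤ N) {R lam : ℝ} {Ω : Set (E N)} (hΩ : Ω ⊆ ball 0 R)
    (hm : MeasurableSet Ω) {w : LV N}
    (hw : Weak Ω w (fun x => lam * fn w x + nl N (fn w x))) :
    IsSolBN Ω lam (fn w) (fun x => w x) := by
  have hwu : w ∈ DD (univ : Set (E N)) := DD_mono (subset_univ _) hw.1
  refine ⟨inH10_of_DD hN hΩ hw.1, fun φ hφ => ?_⟩
  have e : (fun x => (lam * fn w x + |fn w x| ^ (ts N - 2) * fn w x) * φ x) =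
      fun x => (lam * fn w x + nl N (fn w x)) * φ x := by
    funext x
    rw [ts_sub_two74 hN]
    rfl
  rw [e]
  exact ⟨integrable_rhs74 hN hwu lam hφ.univ, weak_grad74 hw hφ⟩

theorem contDiff_bub74 {μ : ℝ} (hμ : 0 < μ) (ξ : E N) : ContDiff ℝ 2 (bub N μ ξ) := by
  unfold bub
  refine contDiff_const.mul (ContDiff.rpow_const_of_ne ?_ (fun x => ?_))
  · exact contDiff_const.add ((contDiff_id.sub contDiff_const).norm_sq ℝ)
  · positivity

theorem nl_bub_bdd74 (hN : 3 ≤ N) {μ : ℝ} (hμ : 0 < μ) (ξ : E N) :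
    Continuous (fun x => nl N (bub N μ ξ x)) := by
  have hpm : 0 < pm N := by rw [← ts_sub_two74 hN]; linarith [ts_gt hN]
  have hnlc : Continuous (nl N) := by
    unfold nl
    exact ((continuous_abs.rpow_const (fun x => Or.inr hpm.le))).mul continuous_id
  exact hnlc.comp (contDiff_bub74 hμ ξ).continuous

theorem Mq_nl_bub74 (hN : 3 ≤ N) {R : ℝ} {Ω : Set (E N)} (hΩ : Ω ⊆ ball 0 R) {μ : ℝ}
    (hμ : 0 < μ) (ξ : E N) (q : ℝ) : Mq q Ω (fun x => nl N (bub N μ ξ x)) := by
  have hc := nl_bub_bdd74 hN hμ ξ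
  obtain ⟨M, hM⟩ := (isCompact_closedBall (0 : E N) R).exists_bound_of_continuousOn
    hc.continuousOn
  have hfin : IsFiniteMeasure ((volume : Measure (E N)).restrict Ω) :=
    ⟨by rw [Measure.restrict_apply_univ]; exact vol_lt_top58 hΩ⟩
  have hfinB : IsFiniteMeasure ((volume : Measure (E N)).restrict (ball 0 R)) :=
    ⟨by rw [Measure.restrict_apply_univ]; exact measure_ball_lt_top⟩
  have h1 : MemLp (fun x => nl N (bub N μ ξ x)) (ENNReal.ofReal q)
      ((volume : Measure (E N)).restrict (ball 0 R)) := by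
    refine MemLp.of_bound hc.aestronglyMeasurable M ?_
    rw [ae_restrict_iff' measurableSet_ball]
    exact Eventually.of_forall fun x hx => hM x (ball_subset_closedBall hx)
  exact h1.mono_measure (Measure.restrict_mono hΩ le_rfl)

theorem bub_pair74 (hN : 3 ≤ N) {μ : ℝ} (hμ : 0 < μ) (ξ : E N) {φ : E N → ℝ}
    (hφ : IsTest univ φ) :
    ∫ x, ⟪∇ (bub N μ ξ) x, ∇ φ x⟫ = ∫ x, nl N (bub N μ ξ x) * φ x := by
  have hψ := contDiff_bub74 hμ ξ
  have hψ1 : ContDiff ℝ 1 (bub N μ ξ) := hψ.of_le (by norm_num)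
  have hφ1 : ContDiff ℝ 1 φ := hφ.1.of_le (by norm_cast)
  have h1 : ∫ x, ⟪∇ (bub N μ ξ) x, ∇ φ x⟫ =
      ∫ x, ∑ i : Fin N, fderiv ℝ (bub N μ ξ) x (EuclideanSpace.single i 1) *
      fderiv ℝ φ x (EuclideanSpace.single i 1) := by
    refine integral_congr_ae (Eventually.of_forall fun x => ?_)
    have h := (EuclideanSpace.basisFun (Fin N) ℝ).sum_inner_mul_inner (∇ (bub N μ ξ) x) (∇ φ x)
    simp only
    rw [← h]
    refine Finset.sum_congr rfl fun i _ => ?_
    rw [EuclideanSpace.basisFun_apply, real_inner_comm (∇ φ x)]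
    unfold gradient
    rw [InnerProductSpace.toDual_symm_apply, InnerProductSpace.toDual_symm_apply]
  have hd : ∀ i : Fin N, ContDiff ℝ 1 fun x =>
      fderiv ℝ (bub N μ ξ) x (EuclideanSpace.single i 1) := fun i =>
    (hψ.fderiv_right (m := 1) (by norm_num)).clm_apply contDiff_const
  have hφs : ∀ i : Fin N, Continuous fun x => fderiv ℝ φ x (EuclideanSpace.single i (1 : ℝ)) :=
    fun i => (hφ1.continuous_fderiv (by norm_num)).clm_apply continuous_const
  have hφc : ∀ i : Fin N, HasCompactSupport fun x =>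
      fderiv ℝ φ x (EuclideanSpace.single i (1 : ℝ)) := fun i => hφ.2.1.fderiv_apply ℝ _
  have hdd : ∀ i : Fin N, Continuous fun x =>
      fderiv ℝ (fun y => fderiv ℝ (bub N μ ξ) y (EuclideanSpace.single i (1 : ℝ))) x
        (EuclideanSpace.single i 1) := fun i =>
    ((hd i).continuous_fderiv (by norm_num)).clm_apply continuous_const
  have hint1 : ∀ i : Fin N, Integrable (fun x =>
      fderiv ℝ (bub N μ ξ) x (EuclideanSpace.single i (1 : ℝ)) *
      fderiv ℝ φ x (EuclideanSpace.single i 1)) volume := fun i =>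
    ((hd i).continuous.mul (hφs i)).integrable_of_hasCompactSupport (hφc i).mul_left
  have hint2 : ∀ i : Fin N, Integrable (fun x =>
      fderiv ℝ (fun y => fderiv ℝ (bub N μ ξ) y (EuclideanSpace.single i (1 : ℝ))) x
        (EuclideanSpace.single i 1) * φ x) volume := fun i =>
    ((hdd i).mul hφ1.continuous).integrable_of_hasCompactSupport hφ.2.1.mul_left
  have hint3 : ∀ i : Fin N, Integrable (fun x =>
      fderiv ℝ (bub N μ ξ) x (EuclideanSpace.single i (1 : ℝ)) * φ x) volume := fun i =>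
    ((hd i).continuous.mul hφ1.continuous).integrable_of_hasCompactSupport hφ.2.1.mul_left
  rw [h1, integral_finsetSum _ fun i _ => hint1 i]
  have h2 : ∀ i : Fin N, ∫ x, fderiv ℝ (bub N μ ξ) x (EuclideanSpace.single i (1 : ℝ)) *
      fderiv ℝ φ x (EuclideanSpace.single i 1) = - ∫ x,
      fderiv ℝ (fun y => fderiv ℝ (bub N μ ξ) y (EuclideanSpace.single i (1 : ℝ))) x
        (EuclideanSpace.single i 1) * φ x := fun i =>
    integral_mul_fderiv_eq_neg_fderiv_mul_of_integrable (hint2 i) (hint1 i) (hint3 i)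
      (fun x _ => (hd i).differentiable (by norm_num) x)
      (fun x _ => hφ1.differentiable (by norm_num) x)
  simp_rw [h2]
  rw [Finset.sum_neg_distrib, ← integral_finsetSum _ fun i _ => hint2 i, ← integral_neg]
  refine integral_congr_ae (Eventually.of_forall fun x => ?_)
  simp only
  have h3 := lap_bub hN hμ ξ x
  unfold lap at h3
  rw [← Finset.sum_mul, h3]
  ring

theorem isProj_of_T (hN : 3 ≤ N) {R : ℝ} {Ω : Set (E N)} (hΩ : Ω ⊆ ball 0 R)
    (hm : MeasurableSet Ω) {μ : ℝ} (hμ : 0 < μ) (ξ : E N) :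
    IsProj Ω μ ξ (fn (T Ω (fun x => nl N (bub N μ ξ x)))) (fun x =>
      T Ω (fun x => nl N (bub N μ ξ x)) x) := by
  refine ⟨inH10_of_DD hN hΩ (T_mem _ _), fun φ hφ => ?_⟩
  rw [weak_grad74 (T_weak hN hm (Mq_nl_bub74 hN hΩ hμ ξ _)) hφ, bubble_eq74,
    bub_pair74 hN hμ ξ hφ.univ]

theorem isOpen_ann74 (N : ℕ) (ρ : ℝ) : IsOpen (ann N ρ) := by
  have h1 : ann N ρ = {x : E N | ρ < ‖x‖} ∩ {x : E N | ‖x‖ < 1} := rfl
  rw [h1]
  exact (isOpen_lt continuous_const continuous_norm).inter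
    (isOpen_lt continuous_norm continuous_const)

theorem ann_sub74 (N : ℕ) (ρ : ℝ) : ann N ρ ⊆ ball (0 : E N) 1 := by
  intro x hx
  rw [mem_ball_zero_iff]
  exact hx.2

theorem infDist_cen {ρ : ℝ} (hρ : 0 < ρ) (hρ1 : ρ < 1) {e : E N} (he : ‖e‖ = 1) {d : ℝ}
    (hd : 0 < d) (hd1 : d < 1 - ρ) (hN : 1 ≤ N) : cen e d ∈ ann N ρ ∧
      infDist (cen e d) (frontier (ann N ρ)) ≤ d := by
  have hmem : ∀ d : ℝ, 0 < d → d < 1 - ρ → cen e d ∈ ann N ρ := by
    intro d hd hd1
    have h1 : ‖cen e d‖ = 1 - d := by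
      unfold cen
      rw [norm_smul, he, mul_one, Real.norm_eq_abs, abs_of_pos (by linarith)]
    exact ⟨by rw [h1]; linarith, by rw [h1]; linarith⟩
  refine ⟨hmem d hd hd1, ?_⟩
  have h1 : e ∈ frontier (ann N ρ) := by
    rw [(isOpen_ann74 N ρ).frontier_eq]
    refine ⟨?_, fun h => by exact absurd h.2 (by rw [he]; exact lt_irrefl _)⟩
    have ht : Tendsto (fun t : ℝ => cen e t) (𝓝[>] 0) (𝓝 e) := by
      have hc : Continuous (fun t : ℝ => cen e t) := by
        unfold cen
        fun_prop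
      have h2 := hc.tendsto 0
      have h3 : cen e 0 = e := by unfold cen; simp
      rw [h3] at h2
      exact h2.mono_left nhdsWithin_le_nhds
    refine mem_closure_of_tendsto ht ?_
    have h4 : Ioo (0 : ℝ) (1 - ρ) ∈ 𝓝[>] (0 : ℝ) := Ioo_mem_nhdsGT (by linarith)
    filter_upwards [h4] with t ht
    exact hmem t ht.1 ht.2
  refine (infDist_le_dist_of_mem h1).trans (le_of_eq ?_)
  rw [dist_eq_norm]
  have h5 : cen e d - e = (-d) • e := by
    unfold cen
    rw [sub_smul, one_smul, neg_smul]; abel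
  rw [h5, norm_smul, he, mul_one, Real.norm_eq_abs, abs_neg, abs_of_pos hd]

end Pool.Agent.helper13.BN
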